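import Mathlib

/-!
# A hypo-unique-domination graph with a cut-vertex (MP_4402ee_co)

The graph has 19 vertices: two copies of a graph with 10 vertices, glued at a vertex.
-/

set_option autoImplicit false

namespace Pool.Agent.Results.MP_4402ee_co.CutVertexExists

/-- `D` is a dominating set of `G`: every vertex outside `D` has a neighbour in `D`. -/
def IsDominating {V : Type} (G : SimpleGraph V) (D : Finset V) : Prop :=
  ∀ v, v ∉ D → ∃ w ∈ D, G.Adj v w

/-- `D` is a `γ`-set of `G`: a dominating set with the least number of vertices. -/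
def IsGammaSet {V : Type} (G : SimpleGraph V) (D : Finset V) : Prop :=
  IsDominating G D ∧ ∀ D' : Finset V, IsDominating G D' → D.card ≤ D'.card

/-- `G` is a hypo-`UD` graph: it has at least two `γ`-sets, and for every vertex `v` the graph `G - v` has
exactly one `γ`-set. -/
def IsHypoUD {V : Type} (G : SimpleGraph V) : Prop :=
  (∃ D₁ D₂ : Finset V, D₁ ≠ D₂ ∧ IsGammaSet G D₁ ∧ IsGammaSet G D₂) ∧
    ∀ v : V, ∃! D : Finset {w : V | w ≠ v}, IsGammaSet (G.induce {w : V | w ≠ v}) D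

/-- `v` is a cut-vertex of `G`: `G - v` has more connected components than `G`. -/
def IsCutVertex {V : Type} (G : SimpleGraph V) (v : V) : Prop :=
  Nat.card G.ConnectedComponent < Nat.card (G.induce {w : V | w ≠ v}).ConnectedComponent

/-! ### The graph -/

/-- closed neighbourhoods as bit masks -/
def cnL : List ℕ := [207253, 346, 845, 526, 211, 992, 118, 945, 423, 684, 177152, 432129, 269312, 107521,
  507904, 60416, 483329, 216065, 350208]

/-- the minimum dominating sets of the vertex-deleted subgraphs as bit masks -/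
def dsL : List ℕ := [263682, 263300, 263298, 263360, 263428, 263188, 263304, 263236, 263696, 263426, 68098,
  67074, 98818, 133634, 10754, 70146, 35330, 270850, 132610]

def cn (i : ℕ) : ℕ := cnL.getD i 0

def ds (i : ℕ) : ℕ := dsL.getD i 0

def full : ℕ := 524287

def look (x s : ℕ) : List ℕ → ℕ → Bool
  | [], _ => false
  | e :: l, p => (Nat.beq p x && Nat.beq e s) || look x s l (2 * p)

def test (m s : ℕ) : Bool :=
  (! Nat.beq (Nat.land (Nat.xor full m) (Nat.xor full m - 1)) 0) || look (Nat.xor full m) s dsL 1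

def allr (p : ℕ → Bool) : ℕ → Bool
  | 0 => true
  | n + 1 => p n && allr p n

theorem allr_spec {p : ℕ → Bool} {n : ℕ} (h : allr p n = true) : ∀ k < n, p k = true := by
  induction n with
  | zero => intro k hk; omega
  | succ n ih =>
    rw [allr, Bool.and_eq_true] at h
    intro k hk
    rcases Nat.lt_succ_iff_lt_or_eq.1 hk with h' | h'
    · exact ih h.2 k h'
    · rw [h']; exact h.1

def big : Bool :=
  allr (fun a => allr (fun b => allr (fun c => allr (fun d =>
    test (Nat.lor (Nat.lor (Nat.lor (cn a) (cn b)) (cn c)) (cn d))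
      (Nat.lor (Nat.lor (Nat.lor (Nat.pow 2 a) (Nat.pow 2 b)) (Nat.pow 2 c)) (Nat.pow 2 d))) 19) 19) 19) 19

set_option maxRecDepth 100000 in
theorem big_true : big = true := by decide +kernel


theorem tst (a b c d : Fin 19) : test (cn a ||| cn b ||| cn c ||| cn d)
    (2 ^ a.1 ||| 2 ^ b.1 ||| 2 ^ c.1 ||| 2 ^ d.1) = true := by
  have h1 := allr_spec big_true a.1 a.2
  have h2 := allr_spec h1 b.1 b.2
  have h3 := allr_spec h2 c.1 c.2
  exact allr_spec h3 d.1 d.2

theorem look_spec {x s : ℕ} : ∀ (l : List ℕ) (p : ℕ), look x s l p = true →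
    ∃ i, i < l.length ∧ p * 2 ^ i = x ∧ l.getD i 0 = s
  | [], p, h => by simp [look] at h
  | e :: l, p, h => by
    rw [look, Bool.or_eq_true, Bool.and_eq_true] at h
    rcases h with h | h
    · exact ⟨0, by simp, by simpa using Nat.eq_of_beq_eq_true h.1, by simpa using Nat.eq_of_beq_eq_true h.2⟩
    · obtain ⟨i, h1, h2, h3⟩ := look_spec l (2 * p) h
      refine ⟨i + 1, by simpa using h1, ?_, by simpa using h3⟩
      rw [← h2, pow_succ]; ring

theorem xcase {u : ℕ} (hu : u < 19) {m : ℕ} (hm : m < 2 ^ 19)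
    (h : ∀ w < 19, w ≠ u → m.testBit w = true) :
    (m.testBit u = true ∧ full ^^^ m = 0) ∨ (m.testBit u = false ∧ full ^^^ m = 2 ^ u) := by
  have hf : full = 2 ^ 19 - 1 := by norm_num [full]
  have hbig : ∀ i, ¬ i < 19 → m.testBit i = false := fun i hi =>
    Nat.testBit_lt_two_pow (lt_of_lt_of_le hm (Nat.pow_le_pow_right (by norm_num) (not_lt.1 hi)))
  cases hb : m.testBit u
  · right
    refine ⟨rfl, Nat.eq_of_testBit_eq fun i => ?_⟩
    rw [Nat.testBit_xor, hf, Nat.testBit_two_pow_sub_one, Nat.testBit_two_pow]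
    by_cases hi : i < 19
    · by_cases hiu : i = u
      · subst hiu; simp [hb, hi]
      · rw [h i hi hiu]; simp [hi, Ne.symm hiu]
    · have : u ≠ i := by omega
      rw [hbig i hi]; simp [hi, this]
  · left
    refine ⟨rfl, Nat.eq_of_testBit_eq fun i => ?_⟩
    rw [Nat.testBit_xor, hf, Nat.testBit_two_pow_sub_one, Nat.zero_testBit]
    by_cases hi : i < 19
    · by_cases hiu : i = u
      · subst hiu; simp [hb, hi]
      · rw [h i hi hiu]; simp [hi]
    · rw [hbig i hi]; simp [hi]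

theorem adj_symm : ∀ i j : Fin 19, (cn i).testBit j = true → (cn j).testBit i = true := by
  decide +kernel

theorem cn_self : ∀ i : Fin 19, (cn i).testBit i = true := by decide +kernel

theorem cn_lt : ∀ i : Fin 19, cn i < 2 ^ 19 := by decide +kernel

/-- the graph -/
def G : SimpleGraph (Fin 19) where
  Adj i j := i ≠ j ∧ (cn i).testBit j = true
  symm := ⟨fun i j h => ⟨h.1.symm, adj_symm i j h.2⟩⟩
  loopless := ⟨fun _ h => h.1 rfl⟩

/-- the unique minimum dominating set of `G - u` -/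
def F (u : Fin 19) : Finset (Fin 19) := Finset.univ.filter fun i => (ds u).testBit i = true

theorem four (D : Finset (Fin 19)) (h : D.card ≤ 4) (hne : D.Nonempty) : ∃ a b c d : Fin 19,
    D = {a, b, c, d} := by
  have hl : D = D.toList.toFinset := D.toList_toFinset.symm
  have hc : D.toList.length ≤ 4 := by rwa [Finset.length_toList]
  rcases h' : D.toList with _ | ⟨a, _ | ⟨b, _ | ⟨c, _ | ⟨d, _ | ⟨e, l⟩⟩⟩⟩⟩
  · rw [Finset.toList_eq_nil] at h'
    exact absurd h' hne.ne_empty
  · exact ⟨a, a, a, a, by rw [hl, h']; simp⟩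
  · exact ⟨a, b, b, b, by rw [hl, h']; simp⟩
  · exact ⟨a, b, c, c, by rw [hl, h']; simp⟩
  · exact ⟨a, b, c, d, by rw [hl, h']; simp⟩
  · rw [h'] at hc
    simp only [List.length_cons] at hc
    omega

theorem pow_land : ∀ u : Fin 19, Nat.land (2 ^ u.1) (2 ^ u.1 - 1) = 0 := by decide +kernel

theorem core (u : Fin 19) (D : Finset (Fin 19)) (hc : D.card ≤ 4) (hne : D.Nonempty)
    (hD : ∀ w, w ≠ u → w ∈ D ∨ ∃ x ∈ D, G.Adj w x) :
    D = F u ∧ ¬ (u ∈ D ∨ ∃ x ∈ D, G.Adj u x) := by
  obtain ⟨a, b, c, d, rfl⟩ := four D hc hne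
  set m := cn a ||| cn b ||| cn c ||| cn d with hm
  have hcov : ∀ w : Fin 19, (w ∈ ({a, b, c, d} : Finset (Fin 19)) ∨
      ∃ x ∈ ({a, b, c, d} : Finset (Fin 19)), G.Adj w x) → m.testBit w = true := by
    intro w hw
    have : ∃ x ∈ ({a, b, c, d} : Finset (Fin 19)), (cn x).testBit w = true := by
      rcases hw with hw | ⟨x, hx, hwx⟩
      · exact ⟨w, hw, cn_self w⟩
      · exact ⟨x, hx, adj_symm _ _ hwx.2⟩
    obtain ⟨x, hx, hxw⟩ := this
    simp only [Finset.mem_insert, Finset.mem_singleton] at hx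
    rw [hm, Nat.testBit_or, Nat.testBit_or, Nat.testBit_or]
    rcases hx with rfl | rfl | rfl | rfl <;> simp [hxw]
  have hlt : m < 2 ^ 19 :=
    Nat.or_lt_two_pow (Nat.or_lt_two_pow (Nat.or_lt_two_pow (cn_lt a) (cn_lt b)) (cn_lt c)) (cn_lt d)
  have hall : ∀ w < 19, w ≠ u.1 → m.testBit w = true := by
    intro w hw hwu
    exact hcov ⟨w, hw⟩ (hD ⟨w, hw⟩ (fun h => hwu (by rw [← h])))
  have ht := tst a b c d
  rw [← hm] at ht
  set s := 2 ^ a.1 ||| 2 ^ b.1 ||| 2 ^ c.1 ||| 2 ^ d.1 with hs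
  rw [test, Bool.or_eq_true] at ht
  change (! Nat.beq (Nat.land (full ^^^ m) ((full ^^^ m) - 1)) 0) = true ∨
    look (full ^^^ m) s dsL 1 = true at ht
  rcases xcase u.2 hlt hall with ⟨hu, hx⟩ | ⟨hu, hx⟩
  · exfalso
    rw [hx] at ht
    rcases ht with ht | ht
    · exact absurd ht (by decide)
    · obtain ⟨i, _, h2, _⟩ := look_spec _ _ ht
      rw [one_mul] at h2
      exact absurd h2 (by positivity)
  · rw [hx] at ht
    rcases ht with ht | ht
    · rw [pow_land u] at ht
      exact absurd ht (by decide)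
    · obtain ⟨i, h1, h2, h3⟩ := look_spec _ _ ht
      rw [one_mul] at h2
      have hiu : i = u.1 := Nat.pow_right_injective le_rfl h2
      rw [hiu] at h3
      constructor
      · ext j
        rw [F, Finset.mem_filter, ds, h3, hs]
        simp only [Finset.mem_insert, Finset.mem_singleton, Finset.mem_univ, true_and,
          Nat.testBit_or, Nat.testBit_two_pow, Bool.or_eq_true, decide_eq_true_eq]
        constructor
        · rintro (rfl | rfl | rfl | rfl) <;> simp
        · rintro (((h | h) | h) | h) <;> simp [Fin.ext h]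
      · intro h
        rw [hcov u h] at hu
        exact absurd hu (by decide)

theorem F_facts : ∀ v : Fin 19, (F v).card = 4 ∧ v ∉ F v := by decide +kernel

theorem F_dom : ∀ v w : Fin 19, w ≠ v → w ∉ F v → ∃ x : Fin 19, x ∈ F v ∧ w ≠ x ∧
    (cn w).testBit x = true := by decide +kernel

theorem unique_gamma (v : Fin 19) : ∃! D : Finset {w : Fin 19 | w ≠ v},
    IsGammaSet (G.induce {w : Fin 19 | w ≠ v}) D := by
  classical
  let e : {w : Fin 19 | w ≠ v} ↪ Fin 19 := Function.Embedding.subtype _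
  have key : ∀ E : Finset {w : Fin 19 | w ≠ v}, IsDominating (G.induce {w : Fin 19 | w ≠ v}) E →
      E.card ≤ 4 → E.map e = F v := by
    intro E hE hc
    refine (core v (E.map e) (by rw [Finset.card_map]; exact hc) ?_ ?_).1
    · obtain ⟨w, hw⟩ : ∃ w : Fin 19, w ≠ v := exists_ne v
      by_cases h : (⟨w, hw⟩ : {w : Fin 19 | w ≠ v}) ∈ E
      · exact ⟨w, Finset.mem_map.2 ⟨⟨w, hw⟩, h, rfl⟩⟩
      · obtain ⟨x, hx, _⟩ := hE ⟨w, hw⟩ h
        exact ⟨x.1, Finset.mem_map.2 ⟨x, hx, rfl⟩⟩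
    · intro w hw
      by_cases h : (⟨w, hw⟩ : {w : Fin 19 | w ≠ v}) ∈ E
      · exact Or.inl (Finset.mem_map.2 ⟨⟨w, hw⟩, h, rfl⟩)
      · obtain ⟨x, hx, hwx⟩ := hE ⟨w, hw⟩ h
        exact Or.inr ⟨x.1, Finset.mem_map.2 ⟨x, hx, rfl⟩, hwx⟩
  obtain ⟨hF4, hvF⟩ := F_facts v
  let E0 : Finset {w : Fin 19 | w ≠ v} := Finset.univ.filter fun w => w.1 ∈ F v
  have hE0 : E0.map e = F v := by
    ext j
    rw [Finset.mem_map]
    constructor
    · rintro ⟨x, hx, rfl⟩
      exact (Finset.mem_filter.1 hx).2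
    · intro hj
      exact ⟨⟨j, fun h => hvF (h ▸ hj)⟩, Finset.mem_filter.2 ⟨Finset.mem_univ _, hj⟩, rfl⟩
  have hc0 : E0.card = 4 := by rw [← Finset.card_map e, hE0, hF4]
  have hd0 : IsDominating (G.induce {w : Fin 19 | w ≠ v}) E0 := by
    intro w hw
    have hwF : w.1 ∉ F v := fun h => hw (Finset.mem_filter.2 ⟨Finset.mem_univ _, h⟩)
    obtain ⟨x, hx, hwx, hb⟩ := F_dom v w.1 w.2 hwF
    have hxv : x ≠ v := fun h => hvF (h ▸ hx)
    exact ⟨⟨x, hxv⟩, Finset.mem_filter.2 ⟨Finset.mem_univ _, hx⟩, ⟨hwx, hb⟩⟩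
  refine ⟨E0, ⟨hd0, fun E hE => ?_⟩, fun E hE => ?_⟩
  · by_contra h
    have h1 : E.card ≤ 4 := by omega
    have h2 : E.card = 4 := by rw [← Finset.card_map e, key E hE h1, hF4]
    omega
  · have h1 : E.card ≤ 4 := hc0 ▸ hE.2 E0 hd0
    exact Finset.map_injective e ((key E hE.1 h1).trans hE0.symm)

theorem five (D : Finset (Fin 19)) (hD : IsDominating G D) : 5 ≤ D.card := by
  by_contra h
  have hc : D.card ≤ 4 := by omega
  have hD' : ∀ w, w ∈ D ∨ ∃ x ∈ D, G.Adj w x := fun w => by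
    by_cases hw : w ∈ D
    · exact Or.inl hw
    · exact Or.inr (hD w hw)
  have hne : D.Nonempty := by
    rcases hD' 0 with h | ⟨x, hx, _⟩
    · exact ⟨0, h⟩
    · exact ⟨x, hx⟩
  exact (core 0 D hc hne fun w _ => hD' w).2 (hD' 0)

theorem dom1 : ∀ v : Fin 19, v ∉ ({0, 1, 5, 10, 14} : Finset (Fin 19)) →
    ∃ w ∈ ({0, 1, 5, 10, 14} : Finset (Fin 19)), v ≠ w ∧ (cn v).testBit w = true := by
  decide +kernel

theorem dom2 : ∀ v : Fin 19, v ∉ ({0, 1, 5, 10, 16} : Finset (Fin 19)) →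
    ∃ w ∈ ({0, 1, 5, 10, 16} : Finset (Fin 19)), v ≠ w ∧ (cn v).testBit w = true := by
  decide +kernel

theorem hypo : IsHypoUD G := by
  refine ⟨⟨{0, 1, 5, 10, 14}, {0, 1, 5, 10, 16}, by decide, ⟨dom1, fun D hD => ?_⟩,
    ⟨dom2, fun D hD => ?_⟩⟩, unique_gamma⟩
  · have : ({0, 1, 5, 10, 14} : Finset (Fin 19)).card = 5 := by decide
    rw [this]
    exact five D hD
  · have : ({0, 1, 5, 10, 16} : Finset (Fin 19)).card = 5 := by decide
    rw [this]
    exact five D hD

def dep : Fin 19 → ℕ := ![0, 2, 1, 2, 1, 2, 2, 1, 1, 2, 2, 1, 2, 1, 2, 2, 1, 1, 2]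

def par : Fin 19 → Fin 19 := ![0, 4, 0, 2, 0, 7, 2, 0, 0, 2, 13, 0, 11, 0, 16, 11, 0, 0, 11]

theorem par_spec : ∀ i : Fin 19, i = 0 ∨ (i ≠ par i ∧ (cn i).testBit (par i) = true ∧
    dep (par i) < dep i) := by decide +kernel

theorem reach : ∀ (n : ℕ) (i : Fin 19), dep i ≤ n → G.Reachable i 0 := by
  intro n
  induction n with
  | zero =>
    intro i hi
    rcases par_spec i with h | h
    · rw [h]
    · omega
  | succ n ih =>
    intro i hi
    rcases par_spec i with h | h
    · rw [h]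
    · have h1 : G.Adj i (par i) := ⟨h.1, h.2.1⟩
      exact h1.reachable.trans (ih (par i) (by omega))

theorem side_adj : ∀ i j : Fin 19, i ≠ 0 → j ≠ 0 → (cn i).testBit j = true →
    (i.1 ≤ 9 ↔ j.1 ≤ 9) := by decide +kernel

theorem side_reach (x y : {w : Fin 19 | w ≠ 0}) (h : (G.induce {w : Fin 19 | w ≠ 0}).Reachable x y) :
    (x.1.1 ≤ 9 ↔ y.1.1 ≤ 9) := by
  obtain ⟨p⟩ := h
  induction p with
  | nil => exact Iff.rfl
  | @cons a b c h _ ih => exact (side_adj a.1 b.1 a.2 b.2 h.2).trans ih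

theorem cut : IsCutVertex G 0 := by
  have h1 : Nat.card G.ConnectedComponent ≤ 1 := by
    have hpre : G.Preconnected := fun i j => (reach _ i le_rfl).trans (reach _ j le_rfl).symm
    have := hpre.subsingleton_connectedComponent
    exact Finite.card_le_one_iff_subsingleton.2 this
  have h2 : 1 < Nat.card (G.induce {w : Fin 19 | w ≠ 0}).ConnectedComponent := by
    have hfin : Finite (G.induce {w : Fin 19 | w ≠ 0}).ConnectedComponent :=
      Finite.of_surjective (G.induce {w : Fin 19 | w ≠ 0}).connectedComponentMk Quot.mk_surjective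
    rw [Finite.one_lt_card_iff_nontrivial]
    refine ⟨(G.induce {w : Fin 19 | w ≠ 0}).connectedComponentMk ⟨1, by decide⟩,
      (G.induce {w : Fin 19 | w ≠ 0}).connectedComponentMk ⟨10, by decide⟩, fun h => ?_⟩
    have := side_reach _ _ (SimpleGraph.ConnectedComponent.eq.1 h)
    exact absurd this (by decide)
  exact lt_of_le_of_lt h1 h2

/-- **There is a hypo-unique-domination graph with a cut-vertex.** -/
theorem result : ∃ (G : SimpleGraph (Fin 19)) (v : Fin 19), IsHypoUD G ∧ IsCutVertex G v :=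
  ⟨G, 0, hypo, cut⟩

end Pool.Agent.Results.MP_4402ee_co.CutVertexExists
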